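import Pool.Agent.H458R3.LotsC
import Pool.Agent.H458R3.LotsD

/-!
# There is no universal linearly ordered topological space at any uncountable cardinal

A LOTS embedding is an injective order preserving map which is continuous for the open interval
topologies (`Preorder.topology` is the topology generated by the open rays).

* For `κ < 2 ^ ℵ₁`: let `x` be a point of a LOTS which is the limit of a decreasing sequence
  `(y_α : α < ω₁)` that is continuous at limits. A LOTS embedding `f` maps it to a sequence of the
  same kind with limit `f x`, and any two such sequences with the same limit agree on a closed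
  unbounded set. So the set of the `α` for which `y_α` has uncountable left cofinality, modulo the
  nonstationary ideal, is an invariant of `f x`. By Ulam's theorem there are `2 ^ ℵ₁` values.
* For `κ ≥ 2 ^ ℵ₀`: the image of a long line under a LOTS embedding is convex, so the positions of
  the images of its points of uncountable left cofinality are determined by the image of the first
  point; as there are long lines of each length less than `κ⁺`, the space has more than `κ` points.
-/

namespace Pool.Agent.Results.MP_4e3057_lc.NoUniversalLOTS

open Cardinal

universe u

/-- A LOTS embedding: an injective, order preserving map which is continuous for the open interval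
topologies of the two linear orders. -/
def IsLOTSEmbedding {L U : Type u} [LinearOrder L] [LinearOrder U] (f : L → U) : Prop :=
  Function.Injective f ∧ (∀ x y, x ≤ y → f x ≤ f y) ∧
    @Continuous L U (Preorder.topology L) (Preorder.topology U) f

/-- `U` is a universal LOTS at `κ`: it has cardinality `κ`, and every LOTS of cardinality `κ` has a
LOTS embedding into it. -/
def IsUniversalLOTS (κ : Cardinal.{u}) (U : Type u) [LinearOrder U] : Prop :=
  #U = κ ∧ ∀ (L : Type u) [LinearOrder L], #L = κ → ∃ f : L → U, IsLOTSEmbedding f

/-- For every uncountable cardinal `κ` there is no universal LOTS at `κ`. -/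
theorem result (κ : Cardinal.{u}) (hκ : ℵ₀ < κ) :
    ¬ ∃ (U : Type u) (_ : LinearOrder U), IsUniversalLOTS κ U := by
  rintro ⟨U, _, hc, hU⟩
  rcases lt_or_ge (#U) (2 ^ (ℵ₁ : Cardinal.{u})) with h | h
  · refine Pool.Agent.H458R3.Lots.no_universal_of_lt U ?_ h (fun L _ hL => hU L (hL.trans hc))
    rw [← succ_aleph0, hc]
    exact Order.succ_le_of_lt hκ
  · refine Pool.Agent.H458R3.Lots.no_universal_of_ge U ?_ (fun L _ hL => hU L (hL.trans hc))
    exact (Cardinal.power_le_power_left two_ne_zero aleph0_lt_aleph_one.le).trans h

end Pool.Agent.Results.MP_4e3057_lc.NoUniversalLOTS
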